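import Pool.Agent.H34.UC.Seq

/-!
# The action of the multipliers

A multiplier is a nondecreasing sequence `B` in `[0, 1]` with limit one. It acts on the closed convex
hull `KK x` of the sequence by multiplication of the distribution function `1 - H`.
-/

set_option autoImplicit false

open Set Filter Topology

namespace Pool.Agent.H34.UC

open Pool.Agent.R270.UL

variable {X : Type*} [NormedAddCommGroup X] [NormedSpace ℝ X] {x : ℕ → X} {L κ : ℝ}

/-- multipliers -/
structure Mult (B : ℕ → ℝ) : Prop where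
  mono : Monotone B
  nonneg : ∀ k, 0 ≤ B k
  le_one : ∀ k, B k ≤ 1
  lim : Tendsto B atTop (𝓝 1)

theorem Mult.mul {B B' : ℕ → ℝ} (h : Mult B) (h' : Mult B') : Mult (fun k => B k * B' k) := by
  refine ⟨fun m n hmn => mul_le_mul (h.mono hmn) (h'.mono hmn) (h'.nonneg m) (h.nonneg n),
    fun k => mul_nonneg (h.nonneg k) (h'.nonneg k),
    fun k => mul_le_one₀ (h.le_one k) (h'.nonneg k) (h'.le_one k), ?_⟩
  have := h.lim.mul h'.lim
  rwa [one_mul] at this

theorem mult_one : Mult (fun _ => 1) :=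
  ⟨fun _ _ _ => le_rfl, fun _ => zero_le_one, fun _ => le_rfl, tendsto_const_nhds⟩

/-- the action on coefficients -/
def Phi (B H : ℕ → ℝ) : ℕ → ℝ := fun n => 1 - B n * (1 - H n)

theorem Phi_mem {B : ℕ → ℝ} (hB : Mult B) {H : ℕ → ℝ} (hH : H ∈ HH) : Phi B H ∈ HH := by
  refine ⟨fun m n hmn => ?_, ?_, ?_⟩
  · have h1 : B m * (1 - H m) ≤ B n * (1 - H n) :=
      mul_le_mul (hB.mono hmn) (sub_le_sub_left (hH.1 hmn) 1) (sub_nonneg.2 (HH.le_one hH m))
        (hB.nonneg n)
    exact sub_le_sub_left h1 1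
  · have := mul_nonneg (hB.nonneg 0) (sub_nonneg.2 (HH.le_one hH 0))
    show 1 - B 0 * (1 - H 0) ≤ 1
    linarith
  · have h1 := hB.lim.mul ((tendsto_const_nhds (x := (1 : ℝ))).sub hH.2.2)
    have h2 := (tendsto_const_nhds (x := (1 : ℝ))).sub h1
    have h3 : (1 : ℝ) - 1 * (1 - 0) = 0 := by simp
    rw [h3] at h2
    exact h2

theorem Phi_Phi (B B' H : ℕ → ℝ) : Phi B (Phi B' H) = Phi (fun k => B k * B' k) H := by
  funext n
  simp only [Phi]
  ring

theorem Phi_one (H : ℕ → ℝ) : Phi (fun _ => 1) H = H := by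
  funext n
  simp only [Phi]
  ring

/-- coefficients are unique -/
theorem coef_unique (h : Good x L κ) {H H' : ℕ → ℝ} {z : X} (hz : IsSum x H z)
    (hz' : IsSum x H' z) : H = H' := by
  funext n
  have h2 := h.coef_le hz hz' n
  rw [sub_self, norm_zero, mul_zero] at h2
  have h3 := abs_nonpos_iff.1 h2
  linarith

/-- `F` is the action of the multipliers -/
def Acts (x : ℕ → X) (F : (ℕ → ℝ) → X → X) : Prop :=
  ∀ B, Mult B → ∀ H ∈ HH, ∀ z, IsSum x H z → IsSum x (Phi B H) (F B z)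

theorem exists_act [CompleteSpace X] (h : Good x L κ) {D : ℝ} (hD : ∀ i j, ‖x i - x j‖ ≤ D) :
    ∃ F : (ℕ → ℝ) → X → X, Acts x F := by
  classical
  have h1 : ∀ (B : ℕ → ℝ) (z : X), ∃ w : X, Mult B → ∀ H ∈ HH, IsSum x H z →
      IsSum x (Phi B H) w := by
    intro B z
    by_cases hB : Mult B
    · by_cases hz : ∃ H ∈ HH, IsSum x H z
      · obtain ⟨H, hH, hHz⟩ := hz
        obtain ⟨w, hw⟩ := exists_isSum hD (Phi_mem hB hH)
        refine ⟨w, fun _ H' hH' hHz' => ?_⟩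
        rw [coef_unique h hHz' hHz]
        exact hw
      · exact ⟨z, fun _ H hH hHz => absurd ⟨H, hH, hHz⟩ hz⟩
    · exact ⟨z, fun hB' => absurd hB' hB⟩
  choose F hF using h1
  exact ⟨F, fun B hB H hH z hz => hF B z hB H hH hz⟩

variable {F : (ℕ → ℝ) → X → X}

theorem act_mem (hF : Acts x F) {B : ℕ → ℝ} (hB : Mult B) {z : X} (hz : z ∈ KK x) :
    F B z ∈ KK x := by
  obtain ⟨H, hH, hHz⟩ := hz
  exact ⟨_, Phi_mem hB hH, hF B hB H hH z hHz⟩

theorem act_act (hF : Acts x F) {B B' : ℕ → ℝ} (hB : Mult B) (hB' : Mult B') {z : X}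
    (hz : z ∈ KK x) : F B (F B' z) = F (fun k => B k * B' k) z := by
  obtain ⟨H, hH, hHz⟩ := hz
  have h1 := hF B hB _ (Phi_mem hB' hH) _ (hF B' hB' H hH z hHz)
  rw [Phi_Phi] at h1
  exact h1.unique (hF _ (hB.mul hB') H hH z hHz)

theorem act_one (hF : Acts x F) {z : X} (hz : z ∈ KK x) : F (fun _ => 1) z = z := by
  obtain ⟨H, hH, hHz⟩ := hz
  have h1 := hF _ mult_one H hH z hHz
  rw [Phi_one] at h1
  exact h1.unique hHz

theorem act_affine (hF : Acts x F) {B : ℕ → ℝ} (hB : Mult B) {z z' : X} (hz : z ∈ KK x)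
    (hz' : z' ∈ KK x) {t : ℝ} (ht0 : 0 ≤ t) (ht1 : t ≤ 1) :
    F B (t • z + (1 - t) • z') = t • F B z + (1 - t) • F B z' := by
  obtain ⟨H, hH, hHz⟩ := hz
  obtain ⟨H', hH', hHz'⟩ := hz'
  have h1 := hF B hB _ (comb_mem_HH hH hH' ht0 (sub_nonneg.2 ht1) (by ring)) _
    (isSum_comb hHz hHz' (s := t) (t := 1 - t) (by ring))
  have h2 := isSum_comb (hF B hB H hH z hHz) (hF B hB H' hH' z' hHz') (s := t) (t := 1 - t)
    (by ring)
  have h3 : Phi B (fun k => t * H k + (1 - t) * H' k) =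
      fun k => t * Phi B H k + (1 - t) * Phi B H' k := by
    funext n
    simp only [Phi]
    ring
  rw [h3] at h1
  exact h1.unique h2

theorem act_lip (h : Good x L κ) (hF : Acts x F) {B : ℕ → ℝ} (hB : Mult B) {z z' : X}
    (hz : z ∈ KK x) (hz' : z' ∈ KK x) : ‖F B z - F B z'‖ ≤ 2 * L * ‖z - z'‖ := by
  obtain ⟨H, hH, hHz⟩ := hz
  obtain ⟨H', hH', hHz'⟩ := hz'
  have h1 := (hF B hB H hH z hHz).sub (hF B hB H' hH' z' hHz')
  refine le_of_tendsto h1.norm (Eventually.of_forall fun N => ?_)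
  rw [add_sub_add_left_eq_sub, ps_sub]
  let R : ℕ → X := fun j => ps x (fun k => H k - H' k) j
  have h2 : ps x (fun k => Phi B H k - Phi B H' k) N =
      ∑ k ∈ Finset.range N, B k • (R (k + 1) - R k) := by
    unfold ps
    refine Finset.sum_congr rfl fun k _ => ?_
    have : R (k + 1) - R k = (H k - H' k) • (x (k + 1) - x k) := by
      simp only [R, ps, Finset.sum_range_succ]
      abel
    rw [this, smul_smul]
    congr 1
    simp only [Phi]
    ring
  rw [h2]
  have h3 := abel B hB.mono (hB.nonneg 0) R (L * ‖z - z'‖)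
    (fun j => h.proj_le hHz hHz' j) (by simp [R, ps]) N
  refine h3.trans ?_
  have h4 : 0 ≤ L * ‖z - z'‖ := mul_nonneg h.L0 (norm_nonneg _)
  have h5 := hB.le_one N
  nlinarith

/-- Abel summation with nonincreasing coefficients -/
theorem abel_anti (b : ℕ → ℝ) (hb : Antitone b) (hb0 : ∀ k, 0 ≤ b k) (R : ℕ → X) (M : ℝ)
    (hR : ∀ j, ‖R j‖ ≤ M) (hR0 : R 0 = 0) (N : ℕ) :
    ‖∑ k ∈ Finset.range N, b k • (R (k + 1) - R k)‖ ≤ b 0 * M := by
  have key : ∀ N, ‖(∑ k ∈ Finset.range N, b k • (R (k + 1) - R k)) - b N • R N‖ ≤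
      (b 0 - b N) * M := by
    intro N
    induction N with
    | zero => simp [hR0]
    | succ N ih =>
      have h1 : (∑ k ∈ Finset.range (N + 1), b k • (R (k + 1) - R k)) - b (N + 1) • R (N + 1) =
          ((∑ k ∈ Finset.range N, b k • (R (k + 1) - R k)) - b N • R N) +
            (b N - b (N + 1)) • R (N + 1) := by
        rw [Finset.sum_range_succ]
        module
      rw [h1]
      refine (norm_add_le _ _).trans ?_
      rw [norm_smul, Real.norm_eq_abs, abs_of_nonneg (sub_nonneg.2 (hb (Nat.le_succ N)))]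
      have h2 := mul_le_mul_of_nonneg_left (hR (N + 1)) (sub_nonneg.2 (hb (Nat.le_succ N)))
      calc _ ≤ (b 0 - b N) * M + (b N - b (N + 1)) * M := add_le_add ih h2
        _ = _ := by ring
  calc ‖∑ k ∈ Finset.range N, b k • (R (k + 1) - R k)‖
      = ‖((∑ k ∈ Finset.range N, b k • (R (k + 1) - R k)) - b N • R N) + b N • R N‖ := by
        rw [sub_add_cancel]
    _ ≤ (b 0 - b N) * M + b N * M := by
        refine (norm_add_le _ _).trans (add_le_add (key N) ?_)
        rw [norm_smul, Real.norm_eq_abs, abs_of_nonneg (hb0 N)]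
        exact mul_le_mul_of_nonneg_left (hR N) (hb0 N)
    _ = b 0 * M := by ring

theorem act_near (h : Good x L κ) (hF : Acts x F) {B : ℕ → ℝ} (hB : Mult B) {z z' : X}
    (hz : z ∈ KK x) (hz' : z' ∈ KK x) :
    ‖(F B z - z) - (F B z' - z')‖ ≤ (1 - B 0) * (L * ‖z - z'‖) := by
  obtain ⟨H, hH, hHz⟩ := hz
  obtain ⟨H', hH', hHz'⟩ := hz'
  have h1 := ((hF B hB H hH z hHz).sub hHz).sub ((hF B hB H' hH' z' hHz').sub hHz')
  refine le_of_tendsto h1.norm (Eventually.of_forall fun N => ?_)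
  let R : ℕ → X := fun j => ps x (fun k => H k - H' k) j
  have h2 : (x 0 + ps x (Phi B H) N - (x 0 + ps x H N)) -
      (x 0 + ps x (Phi B H') N - (x 0 + ps x H' N)) =
      -∑ k ∈ Finset.range N, (1 - B k) • (R (k + 1) - R k) := by
    rw [add_sub_add_left_eq_sub, add_sub_add_left_eq_sub, ps_sub, ps_sub, ps_sub]
    unfold ps
    rw [← Finset.sum_neg_distrib]
    refine Finset.sum_congr rfl fun k _ => ?_
    have : R (k + 1) - R k = (H k - H' k) • (x (k + 1) - x k) := by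
      simp only [R, ps, Finset.sum_range_succ]
      abel
    rw [this, smul_smul, ← neg_smul]
    congr 1
    simp only [Phi]
    ring
  rw [h2, norm_neg]
  exact abel_anti (fun k => 1 - B k) (fun m n hmn => sub_le_sub_left (hB.mono hmn) 1)
    (fun k => sub_nonneg.2 (hB.le_one k)) R (L * ‖z - z'‖) (fun j => h.proj_le hHz hHz' j)
    (by simp [R, ps]) N

theorem act_move (hF : Acts x F) {D : ℝ} (hD : ∀ i j, ‖x i - x j‖ ≤ D) {B : ℕ → ℝ} (hB : Mult B)
    {β : ℝ} (hβ : 0 ≤ β) (hBβ : ∀ k, 1 - B k ≤ β * (1 / 2) ^ (k + 1)) {z : X} (hz : z ∈ KK x) :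
    ‖F B z - z‖ ≤ β * D := by
  obtain ⟨H, hH, hHz⟩ := hz
  have hD0 : 0 ≤ D := (norm_nonneg _).trans (hD 0 0)
  have h1 := (hF B hB H hH z hHz).sub hHz
  refine le_of_tendsto h1.norm (Eventually.of_forall fun N => ?_)
  rw [add_sub_add_left_eq_sub, ps_sub]
  unfold ps
  refine (norm_sum_le _ _).trans ?_
  have h2 : ∀ k ∈ Finset.range N, ‖(Phi B H k - H k) • (x (k + 1) - x k)‖ ≤
      β * D * (1 / 2) ^ (k + 1) := by
    intro k _
    rw [norm_smul, Real.norm_eq_abs]
    have h3 : Phi B H k - H k = (1 - B k) * (1 - H k) := by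
      simp only [Phi]
      ring
    have h4 : 0 ≤ 1 - B k := sub_nonneg.2 (hB.le_one k)
    have h5 : 0 ≤ 1 - H k := sub_nonneg.2 (HH.le_one hH k)
    have h6 : 1 - H k ≤ 1 := by linarith [HH.nonneg hH k]
    rw [h3, abs_of_nonneg (mul_nonneg h4 h5)]
    calc (1 - B k) * (1 - H k) * ‖x (k + 1) - x k‖ ≤ (β * (1 / 2) ^ (k + 1)) * 1 * D := by
          refine mul_le_mul (mul_le_mul (hBβ k) h6 h5 (by positivity)) (hD _ _) (norm_nonneg _)
            (by positivity)
      _ = β * D * (1 / 2) ^ (k + 1) := by ring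
  refine (Finset.sum_le_sum h2).trans ?_
  rw [← Finset.mul_sum]
  have h3 : ∑ k ∈ Finset.range N, ((1 : ℝ) / 2) ^ (k + 1) ≤ 1 := by
    have h4 : ∑ k ∈ Finset.range N, ((1 : ℝ) / 2) ^ (k + 1) = 1 - (1 / 2) ^ N := by
      induction N with
      | zero => simp
      | succ N ih =>
        rw [Finset.sum_range_succ, ih (fun k hk => h2 k (Finset.mem_range.2
          ((Finset.mem_range.1 hk).trans (Nat.lt_succ_self N))))]
        ring
    rw [h4]
    have : (0 : ℝ) ≤ (1 / 2) ^ N := by positivity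
    linarith
  have := mul_le_mul_of_nonneg_left h3 (mul_nonneg hβ hD0)
  linarith

theorem act_no_fixed (h : Good x L κ) (hF : Acts x F) {B : ℕ → ℝ} (hB : Mult B)
    (hB1 : ∀ k, B k < 1) {z : X} (hz : z ∈ KK x) : F B z ≠ z := by
  intro hfz
  obtain ⟨H, hH, hHz⟩ := hz
  have h1 := hF B hB H hH z hHz
  rw [hfz] at h1
  have h2 : ∀ n, H n = 1 := by
    intro n
    have h3 := congrFun (coef_unique h hHz h1) n
    simp only [Phi] at h3
    have h5 : (1 - B n) * (1 - H n) = 0 := by linarith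
    rcases mul_eq_zero.1 h5 with h6 | h6
    · exact absurd h6 (sub_pos.2 (hB1 n)).ne'
    · linarith
  have h3 : Tendsto H atTop (𝓝 1) := by
    have : H = fun _ => (1 : ℝ) := funext h2
    rw [this]
    exact tendsto_const_nhds
  exact zero_ne_one (tendsto_nhds_unique hH.2.2 h3)

end Pool.Agent.H34.UC
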