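import Pool.Agent.H34.UC.Act

/-!
# Retractions and the semigroup
-/

set_option autoImplicit false

open Set Filter Topology

namespace Pool.Agent.H34.UC

open Pool.Agent.R270.UL

theorem weak_iff {𝕜 X : Type*} [RCLike 𝕜] [NormedAddCommGroup X] [NormedSpace ℝ X]
    [NormedSpace 𝕜 X] [IsScalarTower ℝ 𝕜 X] (C : Set X) :
    IsCompact (toWeakSpace 𝕜 X '' C) ↔ IsCompact (toWeakSpace ℝ X '' C) := by
  have hsc : ContinuousConstSMul 𝕜 X := inferInstance
  constructor
  · intro h
    have hc : Continuous (fun z : WeakSpace 𝕜 X => toWeakSpace ℝ X ((toWeakSpace 𝕜 X).symm z)) := by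
      refine WeakBilin.continuous_of_continuous_eval _ fun ψ => ?_
      have h1 : Continuous fun z : WeakSpace 𝕜 X =>
          (StrongDual.extendRCLike (𝕜 := 𝕜) ψ) ((toWeakSpace 𝕜 X).symm z) :=
        WeakBilin.eval_continuous (topDualPairing 𝕜 X).flip (StrongDual.extendRCLike (𝕜 := 𝕜) ψ)
      have h2 := RCLike.continuous_re.comp h1
      refine h2.congr fun z => ?_
      exact StrongDual.re_extendRCLike_apply (𝕜 := 𝕜) ψ ((toWeakSpace 𝕜 X).symm z)
    have h3 := h.image hc
    rw [image_image] at h3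
    simpa using h3
  · intro h
    have hc : Continuous (fun z : WeakSpace ℝ X => toWeakSpace 𝕜 X ((toWeakSpace ℝ X).symm z)) := by
      refine WeakBilin.continuous_of_continuous_eval _ fun φ => ?_
      have h1 : Continuous fun z : WeakSpace ℝ X =>
          (RCLike.reCLM.comp (φ.restrictScalars ℝ) : StrongDual ℝ X) ((toWeakSpace ℝ X).symm z) :=
        WeakBilin.eval_continuous (topDualPairing ℝ X).flip
          (RCLike.reCLM.comp (φ.restrictScalars ℝ) : StrongDual ℝ X)
      have h2 : Continuous fun z : WeakSpace ℝ X =>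
          (RCLike.imCLM.comp (φ.restrictScalars ℝ) : StrongDual ℝ X) ((toWeakSpace ℝ X).symm z) :=
        WeakBilin.eval_continuous (topDualPairing ℝ X).flip
          (RCLike.imCLM.comp (φ.restrictScalars ℝ) : StrongDual ℝ X)
      have h3 := (RCLike.continuous_ofReal (K := 𝕜)).comp h1
      have h4 := ((RCLike.continuous_ofReal (K := 𝕜)).comp h2).mul
        (continuous_const (y := (RCLike.I : 𝕜)))
      refine (h3.add h4).congr fun z => ?_
      exact RCLike.re_add_im (φ ((toWeakSpace ℝ X).symm z))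
    have h3 := h.image hc
    rw [image_image] at h3
    simpa using h3

variable {X : Type*} [NormedAddCommGroup X] [NormedSpace ℝ X] {x : ℕ → X} {L κ : ℝ}

/-- the multiplier of the retraction -/
noncomputable def cut (m : ℕ) : ℕ → ℝ := fun k => if k < m then 0 else 1

theorem mult_cut (m : ℕ) : Mult (cut m) := by
  refine ⟨fun i j hij => ?_, fun k => ?_, fun k => ?_, ?_⟩
  · unfold cut
    split_ifs with h1 h2
    · exact le_rfl
    · exact zero_le_one
    · omega
    · exact le_rfl
  · unfold cut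
    split_ifs <;> norm_num
  · unfold cut
    split_ifs <;> norm_num
  · refine tendsto_const_nhds.congr' ?_
    filter_upwards [eventually_ge_atTop m] with k hk
    simp [cut, not_lt.2 hk]

theorem cut_mul (m n : ℕ) : (fun k => cut m k * cut n k) = cut (max m n) := by
  funext k
  unfold cut
  by_cases h1 : k < m <;> by_cases h2 : k < n <;> simp [h1, h2]

theorem cut_zero : cut 0 = fun _ => 1 := by
  funext k
  simp [cut]

/-- the multiplier of the semigroup -/
noncomputable def flow (c s : ℝ) : ℕ → ℝ := fun k => Real.exp (-(s * (c * (1 / 2) ^ (k + 1))))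

theorem mult_flow {c s : ℝ} (hc : 0 ≤ c) (hs : 0 ≤ s) : Mult (flow c s) := by
  refine ⟨fun i j hij => ?_, fun k => (Real.exp_pos _).le, fun k => ?_, ?_⟩
  · refine Real.exp_le_exp.2 (neg_le_neg ?_)
    refine mul_le_mul_of_nonneg_left (mul_le_mul_of_nonneg_left ?_ hc) hs
    exact pow_le_pow_of_le_one (by norm_num) (by norm_num) (by omega)
  · refine Real.exp_le_one_iff.2 (neg_nonpos.2 ?_)
    positivity
  · have h1 : Tendsto (fun k : ℕ => ((1 : ℝ) / 2) ^ (k + 1)) atTop (𝓝 0) :=
      (tendsto_pow_atTop_nhds_zero_of_lt_one (by norm_num) (by norm_num)).comp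
        (tendsto_add_atTop_nat 1)
    have h2 := ((h1.const_mul c).const_mul s).neg
    rw [mul_zero, mul_zero, neg_zero] at h2
    have h3 := (Real.continuous_exp.tendsto 0).comp h2
    rw [Real.exp_zero] at h3
    exact h3

theorem flow_add (c s t : ℝ) : (fun k => flow c s k * flow c t k) = flow c (s + t) := by
  funext k
  unfold flow
  rw [← Real.exp_add]
  congr 1
  ring

theorem flow_zero (c : ℝ) : flow c 0 = fun _ => 1 := by
  funext k
  simp [flow]

theorem flow_lt {c s : ℝ} (hc : 0 < c) (hs : 0 < s) (k : ℕ) : flow c s k < 1 := by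
  unfold flow
  rw [← Real.exp_zero]
  exact Real.exp_lt_exp.2 (neg_neg_iff_pos.2 (by positivity))

theorem flow_ge {c s : ℝ} (k : ℕ) : 1 - flow c s k ≤ (s * c) * (1 / 2) ^ (k + 1) := by
  have := Real.add_one_le_exp (-(s * (c * (1 / 2) ^ (k + 1))))
  unfold flow
  linarith

variable {F : (ℕ → ℝ) → X → X}

/-- the sets onto which one retracts -/
def KM (x : ℕ → X) (F : (ℕ → ℝ) → X → X) (m : ℕ) : Set X := {z | z ∈ KK x ∧ F (cut m) z = z}

theorem KM_zero (hF : Acts x F) : KM x F 0 = KK x := by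
  ext z
  refine ⟨fun h => h.1, fun h => ⟨h, ?_⟩⟩
  rw [cut_zero]
  exact act_one hF h

theorem KM_anti (hF : Acts x F) : Antitone (KM x F) := by
  intro m n hmn z hz
  refine ⟨hz.1, ?_⟩
  have h1 := act_act hF (mult_cut m) (mult_cut n) hz.1
  rw [cut_mul, max_eq_right hmn, hz.2] at h1
  exact h1

theorem KM_inter (h : Good x L κ) (hF : Acts x F) : ⋂ m, KM x F m = ∅ := by
  rw [eq_empty_iff_forall_notMem]
  intro z hz
  rw [mem_iInter] at hz
  obtain ⟨H, hH, hHz⟩ := (hz 0).1
  have h2 : ∀ n, H n = 1 := by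
    intro n
    have h1 := hF _ (mult_cut (n + 1)) H hH z hHz
    rw [(hz (n + 1)).2] at h1
    have h3 := congrFun (coef_unique h hHz h1) n
    simp only [Phi, cut, Nat.lt_succ_self, if_true, zero_mul, sub_zero] at h3
    exact h3
  have h3 : Tendsto H atTop (𝓝 1) := by
    have : H = fun _ => (1 : ℝ) := funext h2
    rw [this]
    exact tendsto_const_nhds
  exact zero_ne_one (tendsto_nhds_unique hH.2.2 h3)

theorem KM_closed (h : Good x L κ) (hF : Acts x F) (m : ℕ) : IsClosed (KM x F m) := by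
  have hcont : ContinuousOn (F (cut m)) (KK x) := by
    have hL : 0 ≤ 2 * L := mul_nonneg zero_le_two h.L0
    have : LipschitzOnWith ⟨2 * L, hL⟩ (F (cut m)) (KK x) := by
      refine LipschitzOnWith.of_dist_le_mul fun z hz z' hz' => ?_
      rw [dist_eq_norm, dist_eq_norm]
      exact act_lip h hF (mult_cut m) hz hz'
    exact this.continuousOn
  have h1 := (hcont.sub continuousOn_id).preimage_isClosed_of_isClosed (isClosed_KK h)
    (isClosed_singleton (x := (0 : X)))
  have h2 : KM x F m = KK x ∩ (fun z => F (cut m) z - id z) ⁻¹' {0} := by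
    ext z
    exact ⟨fun h => ⟨h.1, sub_eq_zero.2 h.2⟩, fun h => ⟨h.1, sub_eq_zero.1 h.2⟩⟩
  rw [h2]
  exact h1

theorem KM_convex (hF : Acts x F) (m : ℕ) : Convex ℝ (KM x F m) := by
  rintro z ⟨hz, hz'⟩ w ⟨hw, hw'⟩ s t hs ht hst
  have ht' : t = 1 - s := by linarith
  subst ht'
  refine ⟨convex_KK hz hw hs ht hst, ?_⟩
  rw [act_affine hF (mult_cut m) hz hw hs (by linarith), hz', hw']

theorem KM_maps (hF : Acts x F) (m : ℕ) {z : X} (hz : z ∈ KK x) : F (cut m) z ∈ KM x F m := by
  refine ⟨act_mem hF (mult_cut m) hz, ?_⟩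
  rw [act_act hF (mult_cut m) (mult_cut m) hz, cut_mul, max_self]

theorem mem_KK_zero : x 0 ∈ KK x := ⟨0, zero_mem_HH, isSum_zero⟩

theorem KK_subset {C : Set X} (hc : IsClosed C) (hconv : Convex ℝ C) (hx : ∀ n, x n ∈ C) :
    KK x ⊆ C := by
  rintro z ⟨H, hH, hHz⟩
  exact mem_of_isSum hc hconv hx hH hHz

end Pool.Agent.H34.UC
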