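import Pool.Graph.R_seed8.R270.UL5

/-!
# Selection of a sequence with almost monotone differences

`C` is a bounded convex set and `Λ` an element of the bidual in its weak* closure. Finitely many
open balls of `X` which contain `Λ` in the bidual may be added to the conditions on the points of
`C` which approximate `Λ` (Hahn-Banach). So `x ∈ C` can be chosen which approximates `Λ` in the weak*
sense, and such that `‖u + c x‖ ≤ (1 + θ) ‖u + c Λ‖` for `u` in a finite dimensional subspace.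
-/

set_option autoImplicit false

open Set Filter Topology

namespace Pool.Agent.H34.UC

open Pool.Agent.R270.UL

variable {X : Type*} [NormedAddCommGroup X] [NormedSpace ℝ X]

/-- `Λ` is in the weak* closure of `A` -/
def Adh (A : Set X) (Λ : StrongDual ℝ (StrongDual ℝ X)) : Prop :=
  ∀ (G : Finset (StrongDual ℝ X)) (ε : ℝ), 0 < ε → ∃ x ∈ A, ∀ φ ∈ G, |φ x - Λ φ| < ε

theorem adh_ball {A : Set X} (hA : Convex ℝ A) {Λ : StrongDual ℝ (StrongDual ℝ X)} (h : Adh A Λ)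
    (b : X) {r : ℝ} (hr : ‖NormedSpace.inclusionInDoubleDual ℝ X b - Λ‖ < r) :
    Adh (A ∩ Metric.ball b r) Λ := by
  classical
  intro G ε hε
  by_contra hno
  push Not at hno
  let t : Set X := {x | x ∈ A ∧ ∀ φ ∈ G, |φ x - Λ φ| < ε}
  have ht : Convex ℝ t := by
    rintro x ⟨hx, hx'⟩ y ⟨hy, hy'⟩ s s' hs hs' hss
    refine ⟨hA hx hy hs hs' hss, fun φ hφ => ?_⟩
    have h1 := abs_lt.1 (hx' φ hφ)
    have h2 := abs_lt.1 (hy' φ hφ)
    have h3 : φ (s • x + s' • y) - Λ φ = s * (φ x - Λ φ) + s' * (φ y - Λ φ) := by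
      rw [map_add, map_smul, map_smul, smul_eq_mul, smul_eq_mul]
      have : Λ φ = (s + s') * Λ φ := by rw [hss, one_mul]
      nlinarith
    rw [h3]
    rcases hs.eq_or_lt with h0 | h0
    · have : s' = 1 := by linarith
      rw [← h0, this, zero_mul, zero_add, one_mul]
      exact hy' φ hφ
    · rw [abs_lt]
      constructor
      · nlinarith
      · nlinarith
  have hdisj : Disjoint (Metric.ball b r) t := by
    rw [Set.disjoint_left]
    rintro x hx ⟨hxA, hxG⟩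
    obtain ⟨φ, hφ, h1⟩ := hno x ⟨hxA, hx⟩
    exact absurd (hxG φ hφ) (not_lt.2 h1)
  obtain ⟨f, u, hf1, hf2⟩ := geometric_hahn_banach_open (convex_ball b r) Metric.isOpen_ball ht hdisj
  have hr0 : 0 < r :=
    lt_of_le_of_lt (norm_nonneg (NormedSpace.inclusionInDoubleDual ℝ X b - Λ)) hr
  have h1 : u ≤ Λ f := by
    refine le_of_forall_pos_le_add fun ε' hε' => ?_
    obtain ⟨x, hxA, hx⟩ := h (insert f G) (min ε ε') (lt_min hε hε')
    have h2 : x ∈ t := ⟨hxA, fun φ hφ =>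
      (hx φ (Finset.mem_insert_of_mem hφ)).trans_le (min_le_left _ _)⟩
    have h3 := (hx f (Finset.mem_insert_self _ _)).trans_le (min_le_right _ _)
    have h4 := (abs_lt.1 h3).2
    have h5 := hf2 x h2
    linarith
  have h2 : r * ‖f‖ ≤ u - f b := by
    have h3 : ∀ c < ‖f‖, r * c ≤ u - f b := by
      intro c hc
      obtain ⟨v, hv1, hv2⟩ := f.exists_lt_apply_of_lt_opNorm hc
      rw [Real.norm_eq_abs] at hv2
      have h4 : ∀ s : ℝ, |s| ≤ r → f b + s * f v < u := by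
        intro s hs
        have h5 : b + s • v ∈ Metric.ball b r := by
          rw [mem_ball_iff_norm, add_sub_cancel_left, norm_smul, Real.norm_eq_abs]
          nlinarith [abs_nonneg s, norm_nonneg v]
        have h6 := hf1 _ h5
        rwa [map_add, map_smul, smul_eq_mul] at h6
      rcases le_or_gt 0 (f v) with h7 | h7
      · rw [abs_of_nonneg h7] at hv2
        have h8 := h4 r (abs_of_pos hr0).le
        nlinarith
      · rw [abs_of_neg h7] at hv2
        have h8 := h4 (-r) (by rw [abs_neg]; exact (abs_of_pos hr0).le)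
        nlinarith
    by_contra hcon
    push Not at hcon
    have h4 : (u - f b) / r < ‖f‖ := by
      rw [div_lt_iff₀ hr0]
      linarith
    obtain ⟨c, hc1, hc2⟩ := exists_between h4
    rw [div_lt_iff₀ hr0] at hc1
    have := h3 c hc2
    linarith
  have h3 : Λ f - f b ≤ ‖NormedSpace.inclusionInDoubleDual ℝ X b - Λ‖ * ‖f‖ := by
    have h4 := (NormedSpace.inclusionInDoubleDual ℝ X b - Λ).le_opNorm f
    rw [Real.norm_eq_abs] at h4
    have h5 : (NormedSpace.inclusionInDoubleDual ℝ X b - Λ) f = f b - Λ f := rfl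
    rw [h5] at h4
    have := neg_abs_le (f b - Λ f)
    linarith
  have h4 : ‖f‖ = 0 := by
    have h5 := norm_nonneg f
    by_contra h6
    have h7 : 0 < ‖f‖ := lt_of_le_of_ne h5 (Ne.symm h6)
    have h8 := mul_lt_mul_of_pos_right hr h7
    linarith
  have h5 : f = 0 := norm_eq_zero.1 h4
  obtain ⟨x, hxA, hx⟩ := h G ε hε
  have h6 := hf2 x ⟨hxA, hx⟩
  have h7 := hf1 b (Metric.mem_ball_self hr0)
  rw [h5] at h6 h7
  change u ≤ 0 at h6
  change (0 : ℝ) < u at h7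
  linarith

/-- finitely many balls -/
theorem adh_balls {A : Set X} (hA : Convex ℝ A) {Λ : StrongDual ℝ (StrongDual ℝ X)} (h : Adh A Λ)
    (B : Finset X) (r : X → ℝ) (hr : ∀ b ∈ B, ‖NormedSpace.inclusionInDoubleDual ℝ X b - Λ‖ < r b) :
    ∃ A' : Set X, A' ⊆ A ∧ Convex ℝ A' ∧ Adh A' Λ ∧ ∀ x ∈ A', ∀ b ∈ B, ‖x - b‖ < r b := by
  classical
  induction B using Finset.induction_on with
  | empty => exact ⟨A, Subset.rfl, hA, h, fun x _ b hb => absurd hb (Finset.notMem_empty b)⟩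
  | insert b B hb ih =>
    obtain ⟨A', h1, h2, h3, h4⟩ := ih fun b' hb' => hr b' (Finset.mem_insert_of_mem hb')
    refine ⟨A' ∩ Metric.ball b (r b), inter_subset_left.trans h1, h2.inter (convex_ball _ _),
      adh_ball h2 h3 b (hr b (Finset.mem_insert_self _ _)), fun x hx b' hb' => ?_⟩
    rcases Finset.mem_insert.1 hb' with rfl | h5
    · exact mem_ball_iff_norm.1 hx.2
    · exact h4 x hx.1 b' h5

/-- the norming set of functionals on the bidual -/
def SS (X : Type*) [NormedAddCommGroup X] [NormedSpace ℝ X] :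
    Set (StrongDual ℝ (StrongDual ℝ X) →L[ℝ] ℝ) :=
  (fun φ : StrongDual ℝ X => ContinuousLinearMap.apply ℝ ℝ φ) '' {φ | ‖φ‖ ≤ 1}

theorem sep_of_adh {A : Set X} {Λ : StrongDual ℝ (StrongDual ℝ X)}
    (hΛ1 : ∀ x : X, NormedSpace.inclusionInDoubleDual ℝ X x ≠ Λ) (h : Adh A Λ) :
    Sep A (NormedSpace.inclusionInDoubleDualLi (E := X) ℝ) Λ (SS X) := by
  refine ⟨hΛ1, ?_, ?_, ?_⟩
  · intro z a ha
    obtain ⟨φ, hφ1, hφ2⟩ := z.exists_lt_apply_of_lt_opNorm ha
    exact ⟨_, ⟨φ, hφ1.le, rfl⟩, hφ2⟩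
  · rintro _ ⟨φ, hφ, rfl⟩ z
    have := z.le_opNorm φ
    exact this.trans (mul_le_of_le_one_right (norm_nonneg _) hφ)
  · intro G hG hGS ε hε
    obtain ⟨t, -, ht, rfl⟩ := (Set.exists_subset_image_finite_and
      (p := fun t => t = G)).1 ⟨G, hGS, hG, rfl⟩
    obtain ⟨x, hxC, hx⟩ := h ht.toFinset ε hε
    refine ⟨x, hxC, ?_⟩
    rintro _ ⟨φ, hφ, rfl⟩
    exact hx φ (ht.mem_toFinset.2 hφ)

theorem seps_of_adh {C : Set X} (hC : Convex ℝ C) {Λ : StrongDual ℝ (StrongDual ℝ X)}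
    (hΛ1 : ∀ x : X, NormedSpace.inclusionInDoubleDual ℝ X x ≠ Λ) (h : Adh C Λ)
    (B : Finset X) (r : X → ℝ)
    (hr : ∀ b ∈ B, ‖NormedSpace.inclusionInDoubleDualLi (E := X) ℝ b - Λ‖ < r b) :
    ∃ A : Set X, A ⊆ C ∧ Sep A (NormedSpace.inclusionInDoubleDualLi (E := X) ℝ) Λ (SS X) ∧
      ∀ x ∈ A, ∀ b ∈ B, ‖x - b‖ < r b := by
  obtain ⟨A, h1, _, h3, h4⟩ := adh_balls hC h B r hr
  exact ⟨A, h1, sep_of_adh hΛ1 h3, h4⟩

variable {Z : Type*} [NormedAddCommGroup Z] [NormedSpace ℝ Z]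

/-- `Sep` for subsets of `C` in finitely many balls -/
def Seps (C : Set X) (J : X →ₗᵢ[ℝ] Z) (Λ : Z) (S : Set (Z →L[ℝ] ℝ)) : Prop :=
  ∀ (B : Finset X) (r : X → ℝ), (∀ b ∈ B, ‖J b - Λ‖ < r b) →
    ∃ A : Set X, A ⊆ C ∧ Sep A J Λ S ∧ ∀ x ∈ A, ∀ b ∈ B, ‖x - b‖ < r b

/-- Selection of the next vector. -/
theorem select2 {C : Set X} {R : ℝ} (hR : ∀ x ∈ C, ‖x‖ ≤ R) {J : X →ₗᵢ[ℝ] Z} {Λ : Z}
    {S : Set (Z →L[ℝ] ℝ)} (h : Seps C J Λ S) {δ : ℝ} (hδ : 0 < δ)
    (hd : ∀ (x : X) (t : ℝ), |t| * δ ≤ ‖J x + t • Λ‖)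
    (E : Submodule ℝ Z) [FiniteDimensional ℝ E]
    (F : Submodule ℝ X) [FiniteDimensional ℝ F] {η θ : ℝ} (hη : 0 < η) (hθ : 0 < θ) :
    ∃ x ∈ C, (∀ e ∈ E, ∀ c : ℝ, (1 - η) * ‖e‖ ≤ ‖e + c • (J x - Λ)‖) ∧
      ∀ u ∈ F, ∀ c : ℝ, ‖u + c • x‖ ≤ (1 + θ) * ‖J u + c • Λ‖ := by
  classical
  obtain ⟨M, hM⟩ : ∃ M : ℝ, M = (R + (1 + θ) * ‖Λ‖) / θ := ⟨_, rfl⟩
  obtain ⟨τ, hτ⟩ : ∃ τ : ℝ, τ = θ * δ / 3 := ⟨_, rfl⟩
  have hτ0 : 0 < τ := by rw [hτ]; positivity
  have hdu : ∀ u : X, δ ≤ ‖J u - Λ‖ := by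
    intro u
    have := hd u (-1)
    rw [abs_neg, abs_one, one_mul, neg_smul, one_smul, ← sub_eq_add_neg] at this
    exact this
  -- the net
  have hcomp : IsCompact (Metric.closedBall (0 : F) M) := isCompact_closedBall _ _
  obtain ⟨T, hT1, hT2, hT3⟩ := hcomp.finite_cover_balls hτ0
  obtain ⟨A', hA1, hsep, hA4⟩ := h (hT2.toFinset.image (fun v : F => (v : X)))
    (fun b => ‖J b - Λ‖ + τ) (fun b _ => lt_add_of_pos_right _ hτ0)
  obtain ⟨x, hx1, hx2⟩ := select hsep hδ hd E hη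
  refine ⟨x, hA1 hx1, hx2, ?_⟩
  have key : ∀ u ∈ F, ‖u - x‖ ≤ (1 + θ) * ‖J u - Λ‖ := by
    intro u hu
    rcases le_or_gt ‖u‖ M with h1 | h1
    · have h2 : (⟨u, hu⟩ : F) ∈ Metric.closedBall (0 : F) M := by
        rw [mem_closedBall_zero_iff]
        exact h1
      obtain ⟨v, hvT, hv⟩ := mem_iUnion₂.1 (hT3 h2)
      have h3 : ‖u - (v : X)‖ < τ := by
        rw [Metric.mem_ball, dist_eq_norm] at hv
        exact hv
      have h4 := hA4 x hx1 (v : X) (Finset.mem_image.2 ⟨v, hT2.mem_toFinset.2 hvT, rfl⟩)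
      have h5 : ‖u - x‖ ≤ ‖u - (v : X)‖ + ‖x - (v : X)‖ := by
        have : u - x = (u - (v : X)) - (x - (v : X)) := by abel
        rw [this]
        exact norm_sub_le _ _
      have h6 : ‖J (v : X) - Λ‖ ≤ ‖u - (v : X)‖ + ‖J u - Λ‖ := by
        have h7 : J (v : X) - Λ = (J u - Λ) - J (u - (v : X)) := by rw [map_sub]; abel
        rw [h7]
        refine (norm_sub_le _ _).trans ?_
        rw [J.norm_map]
        linarith
      have h8 := mul_le_mul_of_nonneg_left (hdu u) hθ.le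
      have h9 : 3 * τ = θ * δ := by rw [hτ]; ring
      linarith
    · have h2 : ‖u - x‖ ≤ ‖u‖ + R := (norm_sub_le _ _).trans (by linarith [hR x (hA1 hx1)])
      have h3 : ‖u‖ - ‖Λ‖ ≤ ‖J u - Λ‖ := by
        have := norm_sub_norm_le (J u) Λ
        rwa [J.norm_map] at this
      have h4 : R + (1 + θ) * ‖Λ‖ < θ * ‖u‖ := by
        rw [hM, div_lt_iff₀ hθ] at h1
        linarith
      nlinarith
  intro u hu c
  rcases eq_or_ne c 0 with rfl | hc
  · rw [zero_smul, zero_smul, add_zero, add_zero, J.norm_map]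
    have := norm_nonneg u
    nlinarith
  · have h1 := key (-(c⁻¹ • u)) (F.neg_mem (F.smul_mem _ hu))
    have h2 : u + c • x = (-c) • (-(c⁻¹ • u) - x) := by
      rw [smul_sub, smul_neg, neg_smul, neg_neg, smul_smul, mul_inv_cancel₀ hc, one_smul, neg_smul,
        sub_neg_eq_add]
    have h3 : J u + c • Λ = (-c) • (J (-(c⁻¹ • u)) - Λ) := by
      rw [map_neg, map_smul, smul_sub, smul_neg, neg_smul, neg_neg, smul_smul, mul_inv_cancel₀ hc,
        one_smul, neg_smul, sub_neg_eq_add]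
    rw [h2, h3, norm_smul, norm_smul]
    have h4 := mul_le_mul_of_nonneg_left h1 (norm_nonneg (-c))
    linarith

end Pool.Agent.H34.UC
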