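import Pool.Agent.H34.UC.Sel

/-!
# The sequence: the differences form an almost monotone basic sequence
-/

set_option autoImplicit false

open Set Filter Topology

namespace Pool.Agent.H34.UC

open Pool.Agent.R270.UL

variable {X Z : Type*} [NormedAddCommGroup X] [NormedSpace ℝ X] [NormedAddCommGroup Z]
  [NormedSpace ℝ Z]

/-- The sequence. -/
theorem exists_seq2 {C : Set X} {R : ℝ} (hR : ∀ x ∈ C, ‖x‖ ≤ R) {J : X →ₗᵢ[ℝ] Z} {Λ : Z}
    {S : Set (Z →L[ℝ] ℝ)} (h : Seps C J Λ S) {δ : ℝ} (hδ : 0 < δ)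
    (hd : ∀ (x : X) (t : ℝ), |t| * δ ≤ ‖J x + t • Λ‖) (q : ℕ) {θ : ℝ} (hθ : 0 < θ) :
    ∃ x : ℕ → X, (∀ n, x n ∈ C) ∧
      (∀ n : ℕ, ∀ e ∈ Submodule.span ℝ (insert Λ ((fun k => J (x k)) '' Iio n)),
        ∀ c : ℝ, (1 - 1 / ((n : ℝ) + q + 2) ^ 2) * ‖e‖ ≤ ‖e + c • (J (x n) - Λ)‖) ∧
      ∀ n : ℕ, ∀ u ∈ Submodule.span ℝ (x '' Iio n), ∀ c : ℝ,
        ‖u + c • x n‖ ≤ (1 + θ) * ‖J u + c • Λ‖ := by
  classical
  have hstep : ∀ l : List X, ∃ x ∈ C, (∀ e ∈ Submodule.span ℝ (insert Λ (J '' {x | x ∈ l})),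
      ∀ c : ℝ, (1 - 1 / ((l.length : ℝ) + q + 2) ^ 2) * ‖e‖ ≤ ‖e + c • (J x - Λ)‖) ∧
      ∀ u ∈ Submodule.span ℝ {x | x ∈ l}, ∀ c : ℝ, ‖u + c • x‖ ≤ (1 + θ) * ‖J u + c • Λ‖ := by
    intro l
    have hfin : (insert Λ (J '' {x | x ∈ l})).Finite := by
      refine Set.Finite.insert _ (Set.Finite.image _ ?_)
      exact l.finite_toSet
    have : FiniteDimensional ℝ (Submodule.span ℝ (insert Λ (J '' {x | x ∈ l}))) :=
      FiniteDimensional.span_of_finite ℝ hfin
    have : FiniteDimensional ℝ (Submodule.span ℝ {x | x ∈ l}) :=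
      FiniteDimensional.span_of_finite ℝ l.finite_toSet
    exact select2 hR h hδ hd _ _ (by positivity) hθ
  choose nx hnC hnx hnu using hstep
  let s : ℕ → List X := fun n => Nat.rec [] (fun _ l => nx l :: l) n
  have hs1 : ∀ n, s (n + 1) = nx (s n) :: s n := fun n => rfl
  have hlen : ∀ n, (s n).length = n := by
    intro n
    induction n with
    | zero => rfl
    | succ n ih => rw [hs1, List.length_cons, ih]
  have hmem : ∀ n k, k < n → nx (s k) ∈ s n := by
    intro n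
    induction n with
    | zero => intro k hk; omega
    | succ n ih =>
      intro k hk
      rw [hs1]
      rcases Nat.lt_succ_iff_lt_or_eq.1 hk with h1 | h1
      · exact List.mem_cons_of_mem _ (ih k h1)
      · subst h1; exact List.mem_cons_self
  refine ⟨fun n => nx (s n), fun n => hnC _, fun n e he c => ?_, fun n u hu c => ?_⟩
  · have := hnx (s n) e (Submodule.span_mono ?_ he) c
    · rw [hlen] at this
      exact this
    · refine insert_subset_insert ?_
      rintro _ ⟨k, hk, rfl⟩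
      exact ⟨_, hmem n k hk, rfl⟩
  · refine hnu (s n) u (Submodule.span_mono ?_ hu) c
    rintro _ ⟨k, hk, rfl⟩
    exact hmem n k hk

/-- Estimates for the differences. -/
theorem estimates2 {J : X →ₗᵢ[ℝ] Z} {Λ : Z}
    {δ : ℝ} (hδ : 0 < δ) (hd : ∀ (x : X) (t : ℝ), |t| * δ ≤ ‖J x + t • Λ‖) (x : ℕ → X) (q : ℕ)
    {θ : ℝ} (hθ : 0 < θ)
    (hx : ∀ n : ℕ, ∀ e ∈ Submodule.span ℝ (insert Λ ((fun k => J (x k)) '' Iio n)),
      ∀ c : ℝ, (1 - 1 / ((n : ℝ) + q + 2) ^ 2) * ‖e‖ ≤ ‖e + c • (J (x n) - Λ)‖)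
    (hu : ∀ n : ℕ, ∀ u ∈ Submodule.span ℝ (x '' Iio n), ∀ c : ℝ,
        ‖u + c • x n‖ ≤ (1 + θ) * ‖J u + c • Λ‖)
    (G : ℕ → ℝ) (N : ℕ) (hG : ∀ k, N ≤ k → G k = 0) (j : ℕ) (hj : j ≤ N) :
    |G j| ≤ 2 / δ * ‖∑ k ∈ Finset.range N, G k • (x (k + 1) - x k)‖ ∧
    ‖∑ k ∈ Finset.range j, G k • (x (k + 1) - x k)‖ ≤
      (1 + θ) * (1 + 1 / ((q : ℝ) + 2)) * ‖∑ k ∈ Finset.range N, G k • (x (k + 1) - x k)‖ := by
  set T : ℕ → X := fun j => ∑ k ∈ Finset.range j, G k • (x (k + 1) - x k) with hT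
  let y : ℕ → Z := fun j => J (x j) - Λ
  let e : ℕ → Z := fun j => J (T j) - G j • y j
  have hrec : ∀ j, e (j + 1) = e j + (G j - G (j + 1)) • y (j + 1) := by
    intro j
    simp only [e, y, hT, Finset.sum_range_succ, map_add, map_smul, map_sub]
    module
  have hspan : ∀ j, e j ∈ Submodule.span ℝ (insert Λ ((fun k => J (x k)) '' Iio (j + 1))) := by
    intro j
    have hΛ : Λ ∈ Submodule.span ℝ (insert Λ ((fun k => J (x k)) '' Iio (j + 1))) :=
      Submodule.subset_span (mem_insert _ _)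
    have hk : ∀ k, k ≤ j → J (x k) ∈
        Submodule.span ℝ (insert Λ ((fun k => J (x k)) '' Iio (j + 1))) := fun k hk =>
      Submodule.subset_span (mem_insert_of_mem _ ⟨k, by simpa using Nat.lt_succ_of_le hk, rfl⟩)
    refine Submodule.sub_mem _ ?_ (Submodule.smul_mem _ _ (Submodule.sub_mem _ (hk j le_rfl) hΛ))
    simp only [hT, map_sum, map_smul, map_sub]
    refine Submodule.sum_mem _ fun k hk' => Submodule.smul_mem _ _ ?_
    have := Finset.mem_range.1 hk'
    exact Submodule.sub_mem _ (hk _ this) (hk _ this.le)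
  have hW : ∀ j m : ℕ, j ≤ m →
      ((j : ℝ) + q + 2) / (j + q + 3) * ‖e j‖ ≤ ((m : ℝ) + q + 2) / (m + q + 3) * ‖e m‖ := by
    intro j m hjm
    induction m, hjm using Nat.le_induction with
    | base => exact le_rfl
    | succ m hm ih =>
      refine ih.trans ?_
      have h1 := hx (m + 1) (e m) (hspan m) (G m - G (m + 1))
      rw [show e m + (G m - G (m + 1)) • (J (x (m + 1)) - Λ) = e (m + 1) from (hrec m).symm] at h1
      push_cast at h1 ⊢
      have h2 : ((m : ℝ) + q + 2) / (m + q + 3) * ‖e m‖ =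
          ((m : ℝ) + 1 + q + 2) / (m + 1 + q + 3) *
            ((1 - 1 / ((m : ℝ) + 1 + q + 2) ^ 2) * ‖e m‖) := by
        have a1 : (m : ℝ) + q + 3 ≠ 0 := by positivity
        have a2 : (m : ℝ) + 1 + q + 3 ≠ 0 := by positivity
        have a3 : (m : ℝ) + 1 + q + 2 ≠ 0 := by positivity
        field_simp
        ring
      rw [h2]
      exact mul_le_mul_of_nonneg_left h1 (by positivity)
  have heN : e N = J (T N) := by
    simp only [e, hG N le_rfl, zero_smul, sub_zero]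
  have hq0 : (0 : ℝ) ≤ q := Nat.cast_nonneg q
  have hmain : ∀ j, j ≤ N → ‖e j‖ ≤ (1 + 1 / ((q : ℝ) + 2)) * ‖T N‖ := by
    intro j hj
    have hj0 : (0 : ℝ) ≤ j := Nat.cast_nonneg j
    have h1 := hW j N hj
    rw [heN, J.norm_map] at h1
    have h2 : ((N : ℝ) + q + 2) / (N + q + 3) * ‖T N‖ ≤ 1 * ‖T N‖ := by
      refine mul_le_mul_of_nonneg_right ?_ (norm_nonneg _)
      rw [div_le_one (by positivity)]
      linarith
    have h3 := h1.trans h2
    rw [one_mul, div_mul_eq_mul_div, div_le_iff₀ (by positivity)] at h3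
    have h4 : (1 + 1 / ((q : ℝ) + 2)) = (q + 3) / (q + 2) := by
      have : (q : ℝ) + 2 ≠ 0 := by positivity
      field_simp
      ring
    rw [h4, div_mul_eq_mul_div, le_div_iff₀ (by positivity)]
    have h5 := norm_nonneg (T N)
    have h6 := norm_nonneg (e j)
    -- ‖e j‖ (j + q + 2) ≤ ‖T N‖ (j + q + 3)
    have h7 : ‖e j‖ ≤ ‖T N‖ * (((j : ℝ) + q + 3) / (j + q + 2)) := by
      rw [mul_div_assoc', le_div_iff₀ (by positivity)]
      linarith
    have h8 : ((j : ℝ) + q + 3) / (j + q + 2) ≤ (q + 3) / (q + 2) := by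
      rw [div_le_div_iff₀ (by positivity) (by positivity)]
      nlinarith
    have h9 := h7.trans (mul_le_mul_of_nonneg_left h8 h5)
    rw [mul_div_assoc', le_div_iff₀ (by positivity)] at h9
    linarith
  have hGj : |G j| * δ ≤ ‖e j‖ := by
    have h1 := hd (T j - G j • x j) (G j)
    have h2 : J (T j - G j • x j) + G j • Λ = e j := by
      simp only [e, y, map_sub, map_smul]
      module
    rwa [h2] at h1
  have hq2 : 1 + 1 / ((q : ℝ) + 2) ≤ 2 := by
    have : 1 / ((q : ℝ) + 2) ≤ 1 := by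
      rw [div_le_one (by positivity)]
      linarith
    linarith
  refine ⟨?_, ?_⟩
  · rw [div_mul_eq_mul_div, le_div_iff₀ hδ]
    exact hGj.trans ((hmain j hj).trans (mul_le_mul_of_nonneg_right hq2 (norm_nonneg _)))
  · rcases j with _ | j
    · simp only [Finset.range_zero, Finset.sum_empty, norm_zero]
      positivity
    · have h1 : T (j + 1) = (T j - G j • x j) + G j • x (j + 1) := by
        simp only [hT, Finset.sum_range_succ]
        module
      have h2 : J (T j - G j • x j) + G j • Λ = e j := by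
        simp only [e, y, map_sub, map_smul]
        module
      have h3 : T j - G j • x j ∈ Submodule.span ℝ (x '' Iio (j + 1)) := by
        have hk : ∀ k, k ≤ j → x k ∈ Submodule.span ℝ (x '' Iio (j + 1)) := fun k hk =>
          Submodule.subset_span ⟨k, by simpa using Nat.lt_succ_of_le hk, rfl⟩
        refine Submodule.sub_mem _ ?_ (Submodule.smul_mem _ _ (hk j le_rfl))
        simp only [hT]
        refine Submodule.sum_mem _ fun k hk' => Submodule.smul_mem _ _ ?_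
        have := Finset.mem_range.1 hk'
        exact Submodule.sub_mem _ (hk _ this) (hk _ this.le)
      have h4 := hu (j + 1) _ h3 (G j)
      rw [← h1, h2] at h4
      calc ‖T (j + 1)‖ ≤ (1 + θ) * ‖e j‖ := h4
        _ ≤ (1 + θ) * ((1 + 1 / ((q : ℝ) + 2)) * ‖T N‖) :=
            mul_le_mul_of_nonneg_left (hmain j (by omega)) (by positivity)
        _ = (1 + θ) * (1 + 1 / ((q : ℝ) + 2)) * ‖T N‖ := by ring

theorem good_of_seps [CompleteSpace X] {C : Set X} (hb : Bornology.IsBounded C)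
    {J : X →ₗᵢ[ℝ] Z} {Λ : Z} {S : Set (Z →L[ℝ] ℝ)} (hseps : Seps C J Λ S) {ε : ℝ}
    (hε : 0 < ε) : ∃ (x : ℕ → X) (κ : ℝ), Good x (1 + ε) κ ∧ ∀ n, x n ∈ C := by
  obtain ⟨A, _, hA, _⟩ := hseps ∅ 0 (fun b hb => absurd hb (Finset.notMem_empty b))
  obtain ⟨δ, hδ, hd⟩ := exists_dist J hA.notMem
  obtain ⟨R, hR⟩ := hb.exists_norm_le
  obtain ⟨ε', hε'0, hε'1, hε'⟩ : ∃ ε' : ℝ, 0 < ε' ∧ ε' ≤ 1 ∧ ε' ≤ ε :=
    ⟨min 1 ε, lt_min one_pos hε, min_le_left _ _, min_le_right _ _⟩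
  obtain ⟨q, hq⟩ := exists_nat_gt (3 / ε')
  obtain ⟨x, hxC, hx, hu⟩ := exists_seq2 hR hseps hδ hd q (θ := ε' / 3) (by positivity)
  have hL : (1 + ε' / 3) * (1 + 1 / ((q : ℝ) + 2)) ≤ 1 + ε := by
    have h1 : 1 / ((q : ℝ) + 2) ≤ ε' / 3 := by
      rw [div_le_iff₀ (by positivity)]
      rw [div_lt_iff₀ hε'0] at hq
      nlinarith
    have h2 : (1 + ε' / 3) * (1 + 1 / ((q : ℝ) + 2)) ≤ (1 + ε' / 3) * (1 + ε' / 3) :=
      mul_le_mul_of_nonneg_left (by linarith) (by positivity)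
    nlinarith
  have key : ∀ (G : ℕ → ℝ) (N j : ℕ), j ≤ N →
      (j < N → |G j| ≤ 2 / δ * ‖ps x G N‖) ∧ ‖ps x G j‖ ≤ (1 + ε) * ‖ps x G N‖ := by
    intro G N j hj
    let G' : ℕ → ℝ := fun k => if k < N then G k else 0
    have hG' : ∀ k, N ≤ k → G' k = 0 := fun k hk => by simp [G', not_lt.2 hk]
    have key := estimates2 hδ hd x q (by positivity : (0 : ℝ) < ε' / 3) hx hu G' N hG' j hj
    have hsum : ∀ m, m ≤ N → ∑ k ∈ Finset.range m, G' k • (x (k + 1) - x k) =
        ∑ k ∈ Finset.range m, G k • (x (k + 1) - x k) := by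
      intro m hm
      refine Finset.sum_congr rfl fun k hk => ?_
      have : k < N := (Finset.mem_range.1 hk).trans_le hm
      simp [G', this]
    rw [hsum N le_rfl, hsum j hj] at key
    refine ⟨fun hjN => ?_, ?_⟩
    · have : G' j = G j := by simp [G', hjN]
      rw [← this]
      exact key.1
    · exact key.2.trans (mul_le_mul_of_nonneg_right hL (norm_nonneg _))
  exact ⟨x, 2 / δ, ⟨by positivity, by positivity, fun G N j hj => (key G N j hj.le).1 hj,
    fun G N j hj => (key G N j hj).2⟩, hxC⟩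

/-- A bounded closed convex set which is not weakly compact contains a sequence whose
differences form a basic sequence with basis constant at most `1 + ε`. -/
theorem exists_good [CompleteSpace X] {C : Set X} (hb : Bornology.IsBounded C)
    (hc : IsClosed C) (hconv : Convex ℝ C) (hnw : ¬ IsCompact (toWeakSpace ℝ X '' C)) {ε : ℝ}
    (hε : 0 < ε) : ∃ (x : ℕ → X) (κ : ℝ), Good x (1 + ε) κ ∧ ∀ n, x n ∈ C := by
  obtain ⟨Λ, hΛ1, hΛ2⟩ := exists_bidual hb hc hconv hnw
  have hseps : Seps C (NormedSpace.inclusionInDoubleDualLi (E := X) ℝ) Λ (SS X) :=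
    fun B r hr => seps_of_adh hconv hΛ1 hΛ2 B r hr
  exact good_of_seps hb hseps hε

end Pool.Agent.H34.UC
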